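import Mathlib

namespace Pool.Agent.Lib.MP_0f948c_co

open Finset

variable {n : ℕ}

/-- the two points lie in the same members of the support -/
def Same (m : Finset (Fin n) → ℕ) (a b : Fin n) : Prop := ∀ F, m F ≠ 0 → (a ∈ F ↔ b ∈ F)

theorem map_swap_eq {F : Finset (Fin n)} {a b : Fin n} :
    F.map (Equiv.swap a b).toEmbedding = F ↔ (a ∈ F ↔ b ∈ F) := by
  constructor
  · intro h
    have : ∀ c, c ∈ F ↔ Equiv.swap a b c ∈ F := fun c => by
      conv_lhs => rw [← h]
      simp
    simpa using this a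
  · intro h
    ext c
    simp only [mem_map_equiv, Equiv.symm_swap, Equiv.swap_apply_def]
    split_ifs with h1 h2
    · rw [h1]; exact h.symm
    · rw [h2]; exact h
    · rfl

theorem fix_iff {m : Finset (Fin n) → ℕ}
    (hc : ∀ F G, m F ≠ 0 → m G ≠ 0 → G ⊆ F ∨ F ⊆ G) (a b : Fin n) :
    (fun F => m (F.map (Equiv.swap a b).toEmbedding)) = m ↔ Same m a b := by
  constructor
  · intro h F hF
    have e := congrFun h F
    apply map_swap_eq.1
    rcases hc F _ hF (e ▸ hF) with q | q
    · exact eq_of_subset_of_card_le q (by simp)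
    · exact (eq_of_subset_of_card_le q (by simp)).symm
  · intro h
    funext F
    by_cases hF : m F = 0
    · by_contra q
      have := map_swap_eq.2 (h _ (hF ▸ q))
      rw [map_map] at this
      have e : (Equiv.swap a b).toEmbedding.trans (Equiv.swap a b).toEmbedding =
          Function.Embedding.refl _ := by ext c; simp
      rw [e, map_refl] at this
      exact q (by rw [← this])
    · rw [map_swap_eq.2 (h F hF)]

/-- a chain of total weight two cuts the points in three rows, the first two being small -/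
theorem exists_row {r : ℕ} (hr : 0 < r) {m : Finset (Fin n) → ℕ}
    (hc : ∀ F G, m F ≠ 0 → m G ≠ 0 → G ⊆ F ∨ F ⊆ G)
    (hf : ∀ F, m F ≠ 0 → F = univ ∨ F.card < r) (hs : ∑ F, m F = 2) :
    ∃ row : Fin n → ℕ, (∀ a, row a < 3) ∧ (∀ a b, Same m a b ↔ row a = row b) ∧
      #{a | row a ≠ 0} < r := by
  classical
  let T : Finset (Finset (Fin n)) := {F | m F ≠ 0 ∧ F ≠ univ}
  have hT : #T ≤ 2 := by
    rw [← hs, card_eq_sum_ones]
    refine (sum_le_sum fun F hF => ?_).trans (sum_le_sum_of_subset (subset_univ T))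
    exact Nat.one_le_iff_ne_zero.2 (mem_filter.1 hF).2.1
  have lt : ∀ a b F, m F ≠ 0 → a ∈ F → b ∉ F → #{G ∈ T | b ∈ G} < #{G ∈ T | a ∈ G} := by
    intro a b F hF ha hb
    refine card_lt_card ⟨fun G hG => ?_, fun q => hb ?_⟩
    · obtain ⟨g1, g2⟩ := mem_filter.1 hG
      refine mem_filter.2 ⟨g1, ?_⟩
      rcases hc F G hF (mem_filter.1 g1).2.1 with q | q
      · exact absurd (q g2) hb
      · exact q ha
    · exact (mem_filter.1 (q (mem_filter.2 ⟨mem_filter.2 ⟨mem_univ _, hF, fun e =>
        hb (e ▸ mem_univ _)⟩, ha⟩))).2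
  refine ⟨fun a => #{G ∈ T | a ∈ G}, fun a => Nat.lt_succ_of_le ((card_filter_le _ _).trans hT),
    fun a b => ⟨fun h => ?_, fun h F hF => ⟨fun ha => ?_, fun hb => ?_⟩⟩, ?_⟩
  · exact congrArg card (filter_congr fun G hG => h G (mem_filter.1 hG).2.1)
  · by_contra hb
    exact (lt a b F hF ha hb).ne' h
  · by_contra ha
    exact (lt b a F hF hb ha).ne h
  · rcases T.eq_empty_or_nonempty with e | e
    · simp [e, hr]
    · obtain ⟨F, hF, mx⟩ := exists_max_image T card e
      have f := (mem_filter.1 hF).2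
      refine (card_le_card fun a ha => ?_).trans_lt ((hf F f.1).resolve_left f.2)
      obtain ⟨G, hG⟩ := card_ne_zero.1 (mem_filter.1 ha).2
      obtain ⟨g1, g2⟩ := mem_filter.1 hG
      rcases hc F G f.1 (mem_filter.1 g1).2.1 with q | q
      · exact q g2
      · exact eq_of_subset_of_card_le q (mx G g1) ▸ g2

theorem corner {r : ℕ} {row col : Fin n → ℕ} (hc : ∀ a, col a < 3) (hs : #{a | row a ≠ 0} < r)
    {R C : Finset (Fin n)} (hR : #R = 8)
    (inj : ∀ a ∈ R, ∀ b ∈ R, row a = row b → col a = col b → a = b) {w : Fin n}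
    (hC : ∀ a ∈ C, row a = row w) (hw : ∀ a ∈ C, a ∈ R → a = w) (big : r ≤ #C + 4) :
    row w = 0 := by
  by_contra h
  have h0 : #{a ∈ R | row a = 0} ≤ #(range 3) :=
    card_le_card_of_injOn col (fun a _ => by simpa using hc a) fun a ha b hb e => by
      simp only [coe_filter, Set.mem_ofPred_eq] at ha hb
      exact inj a ha.1 b hb.1 (ha.2.trans hb.2.symm) e
  have h1 := card_filter_add_card_filter_not (s := R) fun a => row a = 0
  have h2 := card_union_add_card_inter C {a ∈ R | ¬ row a = 0}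
  have h3 : #(C ∩ {a ∈ R | ¬ row a = 0}) ≤ 1 := card_le_one.2 fun a ha b hb => by
    simp only [mem_inter, mem_filter] at ha hb
    rw [hw a ha.1 ha.2.1, hw b hb.1 hb.2.1]
  have h4 : #(C ∪ {a ∈ R | ¬ row a = 0}) ≤ #{a | row a ≠ 0} := card_le_card fun a ha => by
    simp only [mem_union, mem_filter, mem_univ, true_and] at ha ⊢
    rcases ha with q | q
    · rwa [hC a q]
    · exact q.2
  rw [card_range] at h0
  omega

/-- the first `k` points -/
def I (n k : ℕ) : Finset (Fin n) := {a | a.val < k}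

theorem mem_I {k : ℕ} {a : Fin n} : a ∈ I n k ↔ a.val < k := by simp [I]

theorem card_I {k : ℕ} (h : k ≤ n) : #(I n k) = k := by
  rw [I, Fin.card_filter_val_lt, min_eq_right h]

/-- no pair of weight two chains has the eight cells -/
theorem no_table {r : ℕ} (hr : 7 ≤ r) (hn : 2 * r ≤ n + 2) {row col : Fin n → ℕ}
    (h1 : ∀ a, row a < 3) (h2 : ∀ a, col a < 3) (s1 : #{a | row a ≠ 0} < r)
    (s2 : #{a | col a ≠ 0} < r)
    (h : ∀ a b : Fin n, (row a = row b ∧ col a = col b) ↔
      (a.val = b.val ∨ (6 ≤ a.val ∧ 6 ≤ b.val ∧ (a.val < r + 2 ↔ b.val < r + 2)))) : False := by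
  let u : Fin n := ⟨6, by omega⟩
  let v : Fin n := ⟨r + 2, by omega⟩
  have hv : v ∉ I n 7 := by simp [mem_I, v]; omega
  have hR : #(insert v (I n 7)) = 8 := by rw [card_insert_of_notMem hv, card_I (by omega)]
  have mR : ∀ a ∈ insert v (I n 7), a.val = r + 2 ∨ a.val < 7 := fun a ha => by
    simpa [mem_I, v, Fin.ext_iff] using ha
  have inj : ∀ a ∈ insert v (I n 7), ∀ b ∈ insert v (I n 7), row a = row b → col a = col b →
      a = b := fun a ha b hb e1 e2 => by
    have := (h a b).1 ⟨e1, e2⟩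
    have := mR a ha
    have := mR b hb
    ext; omega
  have cA : r ≤ #(I n (r + 2) \ I n 6) + 4 := by
    have := le_card_sdiff (I n 6) (I n (r + 2))
    rw [card_I (by omega), card_I (by omega)] at this
    omega
  have cB : r ≤ #(I n n \ I n (r + 2)) + 4 := by
    have := le_card_sdiff (I n (r + 2)) (I n n)
    rw [card_I (by omega), card_I (by omega)] at this
    omega
  have eA : ∀ a ∈ I n (r + 2) \ I n 6, row a = row u ∧ col a = col u := fun a ha => by
    simp only [mem_sdiff, mem_I] at ha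
    refine (h a u).2 ?_
    simp only [u]; omega
  have eB : ∀ a ∈ I n n \ I n (r + 2), row a = row v ∧ col a = col v := fun a ha => by
    simp only [mem_sdiff, mem_I] at ha
    refine (h a v).2 ?_
    simp only [v]; omega
  have wA : ∀ a ∈ I n (r + 2) \ I n 6, a ∈ insert v (I n 7) → a = u := fun a ha hb => by
    simp only [mem_sdiff, mem_I] at ha
    have := mR a hb
    ext; simp only [u]; omega
  have wB : ∀ a ∈ I n n \ I n (r + 2), a ∈ insert v (I n 7) → a = v := fun a ha hb => by
    simp only [mem_sdiff, mem_I] at ha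
    have := mR a hb
    ext; simp only [v]; omega
  have a1 := corner h2 s1 hR inj (fun a ha => (eA a ha).1) wA cA
  have a2 := corner h1 s2 hR (fun a ha b hb e1 e2 => inj a ha b hb e2 e1)
    (fun a ha => (eA a ha).2) wA cA
  have b1 := corner h2 s1 hR inj (fun a ha => (eB a ha).1) wB cB
  have b2 := corner h1 s2 hR (fun a ha b hb e1 e2 => inj a ha b hb e2 e1)
    (fun a ha => (eB a ha).2) wB cB
  have := (h u v).1 ⟨a1.trans b1.symm, a2.trans b2.symm⟩
  simp only [u, v] at this
  omega

theorem exists_hyper {r : ℕ} (hr : 7 ≤ r) (hn : 2 * r ≤ n + 2) :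
    ∃ H : Finset (Fin n), 1 < #H ∧ #H < r ∧
      ∀ a, a ∈ H ↔ a.val < r + 2 ∧ a.val ≠ 1 ∧ a.val ≠ 3 ∧ a.val ≠ 5 := by
  let S : Finset (Fin n) := {⟨1, by omega⟩, ⟨3, by omega⟩, ⟨5, by omega⟩}
  have hS : #S = 3 := card_eq_three.2 ⟨_, _, _, by simp, by simp, by simp, rfl⟩
  have sub : S ⊆ I n (r + 2) := fun a ha => by
    simp only [S, mem_insert, mem_singleton, Fin.ext_iff] at ha
    exact mem_I.2 (by omega)
  have := card_sdiff_of_subset sub
  rw [card_I (by omega), hS] at this
  exact ⟨I n (r + 2) \ S, by omega, by omega, fun a => by simp [S, mem_I, Fin.ext_iff]⟩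

end Pool.Agent.Lib.MP_0f948c_co
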